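import Pool.Agent.P8H96.SP.Stm

/-!
# Project SP (for helper96): packages HG and FLD
-/

set_option autoImplicit false

open Finset Polynomial Module Pool.Agent.H388SL Pool.Agent.Y947.DL Pool.Agent.Y947.RL

namespace Pool.Agent.P8H76.SP

theorem log_mahler_prod {K : Type*} [Field K] [NumberField K] (α : K) (s : Finset (K →ₐ[ℚ] ℂ)) :
    Real.log (∏ τ ∈ s, ((X : ℂ[X]) - C (τ α))).mahlerMeasure = ∑ τ ∈ s, Real.log (max 1 ‖τ α‖) := by
  have h1 : (∏ τ ∈ s, ((X : ℂ[X]) - C (τ α))).mahlerMeasure = ∏ τ ∈ s, max 1 ‖τ α‖ := by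
    rw [Finset.prod_eq_multiset_prod, prod_mahlerMeasure_eq_mahlerMeasure_prod, Multiset.map_map,
      Finset.prod_eq_multiset_prod]
    congr 1
    refine Multiset.map_congr rfl fun τ _ => ?_
    rw [Function.comp_apply, mahlerMeasure_X_sub_C]
  rw [h1, Real.log_prod]
  intro τ _
  have : (0:ℝ) < max 1 ‖τ α‖ := lt_of_lt_of_le one_pos (le_max_left _ _)
  exact this.ne'

theorem hg : Pool.Agent.P8H96.SP.S_HG := by
  intro M _ _ α τ hα
  set g := IntermediateField.AdjoinSimple.gen ℚ α with hg
  have hga : algebraMap (IntermediateField.adjoin ℚ {α}) M g = α := IntermediateField.AdjoinSimple.algebraMap_gen ℚ α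
  have hgi : IsIntegral ℤ g := by
    rw [← hga] at hα
    exact (isIntegral_algebraMap_iff (algebraMap (IntermediateField.adjoin ℚ {α}) M).injective).mp hα
  have h1 : minpoly ℤ (τ α) = minpoly ℤ g := by
    have e1 := minpoly.algHom_eq (τ.restrictScalars ℤ) τ.injective α
    rw [AlgHom.restrictScalars_apply] at e1
    have e2 := minpoly.algebraMap_eq (A := ℤ) (algebraMap (IntermediateField.adjoin ℚ {α}) M).injective g
    rw [e1, ← e2]
    congr 1
  have h2 : (minpoly ℤ g).map (Int.castRingHom ℂ) =
      ∏ σ : (IntermediateField.adjoin ℚ {α}) →ₐ[ℚ] ℂ, (X - C (σ g)) := by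
    rw [← minpoly_map_eq (CInj_gen α), minpoly.isIntegrallyClosed_eq_field_fractions' ℚ hgi, Polynomial.map_map]
    rfl
  have h3 : (minpoly ℤ g).natDegree = finrank ℚ (IntermediateField.adjoin ℚ {α}) := by
    rw [← (minpoly.monic hgi).natDegree_map (Int.castRingHom ℂ), h2, natDegree_prod_of_monic _ _
      fun σ _ => monic_X_sub_C _]
    simp only [natDegree_X_sub_C, Finset.sum_const, Finset.card_univ, smul_eq_mul, mul_one]
    exact AlgHom.card ℚ _ ℂ
  have h4 : finrank ℚ (IntermediateField.adjoin ℚ {α}) * finrank (IntermediateField.adjoin ℚ {α}) M = finrank ℚ M :=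
    finrank_mul_finrank ℚ (IntermediateField.adjoin ℚ {α}) M
  have h5 : lam α = finrank (IntermediateField.adjoin ℚ {α}) M * lam g := by
    rw [lam, sum_embeddings' α (fun z => Real.log (max 1 ‖z‖)), nsmul_eq_mul]
    rfl
  have h6 : (0 : ℝ) < finrank ℚ (IntermediateField.adjoin ℚ {α}) := by exact_mod_cast finrank_pos
  rw [hgt, h1, h2, h3, log_mahler_prod, h5, ← h4, Nat.cast_mul]
  show lam g / _ * _ = _
  field_simp

theorem exists_lift (K : IntermediateField ℚ ℂ) (P : ℂ[X]) (h : ∀ n, P.coeff n ∈ K) :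
    ∃ G : K[X], G.map (algebraMap K ℂ) = P := by
  have : P ∈ lifts (algebraMap K ℂ) := (lifts_iff_coeff_lifts _).2 fun n => ⟨⟨P.coeff n, h n⟩, rfl⟩
  exact (mem_lifts _).1 this

theorem fld : Pool.Agent.P8H96.SP.S_FLD := by
  classical
  intro L hL z hz F N
  let S : Set ℂ := (fun n => (F.coeff n : ℂ)) '' (F.support : Set ℕ) ∪
    ⋃ m ∈ (Finset.range (N + 1) : Set ℕ), (fun n => ((minpoly L (z ^ m)).coeff n : ℂ)) '' ((minpoly L (z ^ m)).support : Set ℕ)
  have hSL : ∀ x ∈ S, x ∈ L := by
    rintro x (⟨n, _, rfl⟩ | hx)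
    · exact (F.coeff n).2
    · rw [Set.mem_iUnion₂] at hx
      obtain ⟨m, _, n, _, rfl⟩ := hx
      exact ((minpoly L (z ^ m)).coeff n).2
  have hSf : S.Finite := by
    refine ((Finset.finite_toSet _).image _).union ?_
    exact Set.Finite.biUnion (Finset.finite_toSet _) fun m _ => (Finset.finite_toSet _).image _
  have hSi : ∀ x ∈ S, IsIntegral ℚ x := by
    intro x hx
    have h1 : IsAlgebraic ℚ (⟨x, hSL x hx⟩ : L) := hL.isAlgebraic _
    have h2 := h1.isIntegral.map (IntermediateField.val L)
    exact h2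
  refine ⟨IntermediateField.adjoin ℚ S, ?_, ?_, ?_, ?_⟩
  · have := hSf.to_subtype
    exact IntermediateField.finiteDimensional_adjoin hSi
  · exact IntermediateField.adjoin_le_iff.2 hSL
  · refine exists_lift _ _ fun n => ?_
    rw [coeff_map]
    by_cases hn : n ∈ F.support
    · exact IntermediateField.subset_adjoin ℚ S (Or.inl ⟨n, hn, rfl⟩)
    · rw [notMem_support_iff.1 hn, map_zero]
      exact zero_mem _
  · intro m hm
    have hzm : IsIntegral ℤ (z ^ m) := hz.pow m
    have hzL : IsIntegral L (z ^ m) := hzm.tower_top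
    set K := IntermediateField.adjoin ℚ S with hK
    have hzK : IsIntegral K (z ^ m) := hzm.tower_top
    have hKL : K ≤ L := IntermediateField.adjoin_le_iff.2 hSL
    apply le_antisymm
    · obtain ⟨G, hG⟩ := exists_lift K ((minpoly L (z ^ m)).map (algebraMap L ℂ)) fun n => by
        rw [coeff_map]
        by_cases hn : n ∈ (minpoly L (z ^ m)).support
        · refine IntermediateField.subset_adjoin ℚ S (Or.inr ?_)
          rw [Set.mem_iUnion₂]
          exact ⟨m, by simpa using Nat.lt_succ_of_le hm, n, hn, rfl⟩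
        · rw [notMem_support_iff.1 hn, map_zero]
          exact zero_mem _
      have h1 : G.Monic := by
        have h2 : (G.map (algebraMap K ℂ)).Monic := by rw [hG]; exact (minpoly.monic hzL).map _
        exact (monic_map_iff).1 h2
      have h3 : aeval (z ^ m) G = 0 := by
        rw [aeval_def, ← eval_map, hG, eval_map, ← aeval_def, minpoly.aeval]
      have h4 := minpoly.min K (z ^ m) h1 h3
      have h5 := natDegree_le_natDegree h4
      rwa [← natDegree_map_eq_of_injective (algebraMap K ℂ).injective G, hG,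
        natDegree_map_eq_of_injective (algebraMap L ℂ).injective] at h5
    · have h1 : aeval (z ^ m) ((minpoly K (z ^ m)).map (IntermediateField.inclusion hKL).toRingHom) = 0 := by
        rw [aeval_def, eval₂_map]
        have h2 : (algebraMap L ℂ).comp (IntermediateField.inclusion hKL).toRingHom = algebraMap K ℂ := by
          ext x
          rfl
        rw [h2, ← aeval_def, minpoly.aeval]
      have h4 := minpoly.min L (z ^ m) ((minpoly.monic hzK).map _) h1
      have h5 := natDegree_le_natDegree h4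
      rwa [(minpoly.monic hzK).natDegree_map] at h5

end Pool.Agent.P8H76.SP
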